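import Pool.Agent.Helper25.HL.Goals4

set_option autoImplicit false

open Filter Topology

noncomputable section

namespace Pool.Agent.Helper99.HL

open Pool.Agent.Helper25.HL

lemma zero_of_sq {X : Type} [AddCommGroup X] [Module ℂ X] (f : Module.End ℂ X) (μ : ℂ) (hμ : μ ≠ 0) :
    ∀ (k : ℕ) (z : X), f (f z) = 0 → ((f - μ • (1 : Module.End ℂ X)) ^ k) z = 0 → z = 0 := by
  intro k
  induction k with
  | zero =>
    intro z _ h
    simpa using h
  | succ k ih =>
    intro z hz h
    rw [pow_succ, Module.End.mul_apply] at h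
    have h1 := ih ((f - μ • (1 : Module.End ℂ X)) z) (by
      simp only [LinearMap.sub_apply, LinearMap.smul_apply, Module.End.one_apply, map_sub, map_smul, hz]
      simp) h
    simp only [LinearMap.sub_apply, LinearMap.smul_apply, Module.End.one_apply] at h1
    have h2 : f z = μ • z := sub_eq_zero.1 h1
    rw [h2, map_smul, h2, smul_smul] at hz
    exact (smul_eq_zero.1 hz).resolve_left (mul_ne_zero hμ hμ)

lemma pow_sq {X : Type} [AddCommGroup X] [Module ℂ X] (f : Module.End ℂ X) (μ : ℂ)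
    (hf : ∀ y, f (f (f y)) = f (f y)) (k : ℕ) (z : X) :
    ((f - μ • (1 : Module.End ℂ X)) ^ k) (f (f z)) = (1 - μ) ^ k • f (f z) := by
  induction k with
  | zero => simp
  | succ k ih =>
    rw [pow_succ', Module.End.mul_apply, ih]
    simp only [LinearMap.sub_apply, LinearMap.smul_apply, Module.End.one_apply, map_smul, hf]
    rw [pow_succ, mul_smul, sub_smul, one_smul]

lemma sq_pow {X : Type} [AddCommGroup X] [Module ℂ X] (f : Module.End ℂ X) (μ : ℂ) (k : ℕ) (z : X) :
    ((f - μ • (1 : Module.End ℂ X)) ^ k) (f (f z)) = f (f (((f - μ • (1 : Module.End ℂ X)) ^ k) z)) := by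
  have h : Commute ((f - μ • (1 : Module.End ℂ X)) ^ k) (f * f) := by
    refine Commute.pow_left ?_ k
    refine Commute.sub_left ?_ ?_
    · exact Commute.mul_right (Commute.refl f) (Commute.refl f)
    · exact (Commute.one_left _).smul_left μ
  have h2 := LinearMap.congr_fun h.eq z
  simpa [Module.End.mul_apply] using h2

lemma eig_bot {X : Type} [AddCommGroup X] [Module ℂ X] (f : Module.End ℂ X)
    (hf : ∀ y, f (f (f y)) = f (f y)) (μ : ℂ) (h0 : μ ≠ 0) (h1 : μ ≠ 1) :
    Module.End.maxGenEigenspace f μ = ⊥ := by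
  rw [eq_bot_iff]
  intro x hx
  rw [Module.End.mem_maxGenEigenspace] at hx
  obtain ⟨k, hk⟩ := hx
  rw [Submodule.mem_bot]
  refine zero_of_sq f μ h0 k x ?_ hk
  have h2 := pow_sq f μ hf k x
  rw [sq_pow, hk, map_zero, map_zero] at h2
  exact (smul_eq_zero.1 h2.symm).resolve_left (pow_ne_zero k (sub_ne_zero.2 h1.symm))

lemma eig_one {X : Type} [AddCommGroup X] [Module ℂ X] (f : Module.End ℂ X)
    (hf : ∀ y, f (f (f y)) = f (f y)) :
    Module.End.maxGenEigenspace f 1 = LinearMap.range (f ∘ₗ f) := by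
  apply le_antisymm
  · intro x hx
    rw [Module.End.mem_maxGenEigenspace] at hx
    obtain ⟨k, hk⟩ := hx
    have h1 : x - f (f x) = 0 := by
      rcases k with _ | k
      · have : x = 0 := by simpa using hk
        rw [this]; simp
      · refine zero_of_sq f 1 one_ne_zero (k + 1) _ ?_ ?_
        · simp [map_sub, hf]
        · rw [map_sub, hk, pow_sq f 1 hf]
          simp
    exact ⟨x, (sub_eq_zero.1 h1).symm⟩
  · rintro x ⟨u, rfl⟩
    rw [Module.End.mem_maxGenEigenspace]
    refine ⟨1, ?_⟩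
    simp [hf]

theorem eig : S_EIG := by
  intro X _ _ T h3 hr
  set f : Module.End ℂ X := (T : X →ₗ[ℂ] X) with hfdef
  have hf : ∀ y, f (f (f y)) = f (f y) := h3
  have e1 : Module.finrank ℂ (Module.End.maxGenEigenspace f 1) = 1 := by
    rw [eig_one f hf]
    exact hr
  have e0 : ∀ μ : ℂ, μ ≠ 0 → μ ≠ 1 → Module.finrank ℂ (Module.End.maxGenEigenspace f μ) = 0 := by
    intro μ h0 h1
    rw [eig_bot f hf μ h0 h1]
    simp
  constructor
  · refine summable_of_ne_finset_zero (s := {1}) ?_
    intro μ hμ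
    rw [Finset.mem_singleton] at hμ
    by_cases h0 : μ = 0
    · simp [h0]
    · rw [e0 μ h0 hμ]; simp
  · rw [tsum_eq_single 1]
    · rw [e1]; simp
    · intro μ hμ
      by_cases h0 : μ = 0
      · simp [h0]
      · rw [e0 μ h0 hμ]; simp

end Pool.Agent.Helper99.HL
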