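import Pool.Agent.Helper25.HL.Goals2

/-!
# Packet HL-DEP (MP_03bcbb_an): dependence of the ridge form on the columns
-/

set_option autoImplicit false

noncomputable section

namespace Pool.Agent.Helper99.HL

open Pool.Agent.Helper25.HL

/-- DEP. -/
theorem dep : S_DEP := by
  intro p q σ σ' S Λ
  constructor
  · intro h v
    have hR : ∀ a, ∀ t ∈ S, Rm σ a t = Rm σ' a t := by
      intro a t ht
      unfold Rm
      rw [h a t ht]
    have hX : XS σ S = XS σ' S := by
      unfold XS
      funext a b
      refine Finset.sum_congr rfl fun t ht => ?_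
      rw [hR a t ht, hR b t ht]
    unfold EB QS
    rw [hX]
  · intro h β hβ
    funext a
    change ∑ t, ((Rm σ a t : ℝ) : ℂ) * β t = ∑ t, ((Rm σ' a t : ℝ) : ℂ) * β t
    refine Finset.sum_congr rfl fun t _ => ?_
    by_cases ht : t ∈ S
    · rw [hβ t ht, mul_zero, mul_zero]
    · unfold Rm
      rw [h a t ht]

end Pool.Agent.Helper99.HL
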